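import Pool.Agent.X104.MF.Main

set_option autoImplicit false

/-!
# MP_16b0ee_an: the whole class `Σ` for `a < 1/16`, and maps with a quasiconformal extension

The integral of the question is at most `1 / (1 - 16 a)` for all `0 < a < 1/16`, all `R > 1` and all
`ψ` in `Σ`, without any further hypothesis. For holomorphic families `ψ_l`, `|l| < 1`, in `Σ` through
the identity it is at most `1 / (1 - 16 a k²)` for `|l| ≤ k`, `16 a k² < 1`; for `k ≤ 1/4` this is the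
full range `0 < a < 1` of the question.
-/

namespace Pool.Agent.Results.MP_16b0ee_an.UnconditionalSixteenth

open Filter Topology

/-- `ψ` belongs to `Σ`, and `h` is the branch of `log ψ'` that vanishes at infinity, as in the
problem. -/
def InSigma (ψ h : ℂ → ℂ) : Prop :=
  DifferentiableOn ℂ ψ {z : ℂ | 1 < ‖z‖} ∧ Set.InjOn ψ {z : ℂ | 1 < ‖z‖} ∧
    (∃ b : ℂ, Tendsto (fun z => ψ z - z) (Bornology.cobounded ℂ) (𝓝 b)) ∧
    DifferentiableOn ℂ h {z : ℂ | 1 < ‖z‖} ∧ Tendsto h (Bornology.cobounded ℂ) (𝓝 0) ∧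
    ∀ z : ℂ, 1 < ‖z‖ → Complex.exp (h z) = deriv ψ z

/-- A holomorphic family in `Σ` through the identity: `ψ l` is in `Σ` for `|l| < 1`, the number
`h l z = log (ψ l)' (z)` is a holomorphic function of `l` for every `z`, and `h 0 = 0` (so `ψ 0` is the
identity up to a constant). -/
def Family (ψ h : ℂ → ℂ → ℂ) : Prop :=
  (∀ l : ℂ, ‖l‖ < 1 → InSigma (ψ l) (h l)) ∧
    (∀ z : ℂ, 1 < ‖z‖ → DifferentiableOn ℂ (fun l => h l z) {l : ℂ | ‖l‖ < 1}) ∧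
    ∀ z : ℂ, 1 < ‖z‖ → h 0 z = 0

/-- The integral of Q1. -/
noncomputable def marshall (a R : ℝ) (h : ℂ → ℂ) : ℝ :=
  (1 / (2 * Real.pi)) * ∫ θ in (0:ℝ)..(2 * Real.pi),
    Real.exp (a * ‖h ((R : ℂ) * Complex.exp ((θ : ℂ) * Complex.I))‖ ^ 2 /
      Real.log (R ^ 2 / (R ^ 2 - 1)))

/-- **The strong Marshall bound for the whole class and `a < 1/16`, and for holomorphic families.**

1. For all `0 < a < 1/16`, all `R > 1` and all `ψ` in `Σ` the integral is at most `1 / (1 - 16 a)`.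
2. For all `0 < b < 1/16`, `a ≥ b`: it is at most `(R² / (R² - 1)) ^ (a - b) / (1 - 16 b)`.
3. For every complex `t` the mean of `|ψ' ^ t|` is at most `(R² / (R² - 1)) ^ (4 |t|²)`.
4. In a holomorphic family through the identity, for `|l| ≤ k < 1`, `0 < b ≤ a`, `16 b k² < 1`, the
   integral for `ψ l` is at most `(R² / (R² - 1)) ^ ((a - b) k²) / (1 - 16 b k²)`.
5. In particular for `|l| ≤ 1/4` it is at most `1 / (1 - a)` for every `0 < a < 1`. -/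
theorem result :
    (∀ a R : ℝ, 0 < a → a < 1 / 16 → 1 < R → ∀ ψ h : ℂ → ℂ, InSigma ψ h →
      marshall a R h ≤ 1 / (1 - 16 * a)) ∧
    (∀ a b R : ℝ, 0 < b → b < 1 / 16 → b ≤ a → 1 < R → ∀ ψ h : ℂ → ℂ, InSigma ψ h →
      marshall a R h ≤ (R ^ 2 / (R ^ 2 - 1)) ^ (a - b) * (1 / (1 - 16 * b))) ∧
    (∀ (t : ℂ) (R : ℝ), 1 < R → ∀ ψ h : ℂ → ℂ, InSigma ψ h →
      (1 / (2 * Real.pi)) * ∫ θ in (0:ℝ)..(2 * Real.pi),
        ‖Complex.exp (t * h ((R : ℂ) * Complex.exp ((θ : ℂ) * Complex.I)))‖ ≤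
          (R ^ 2 / (R ^ 2 - 1)) ^ (4 * ‖t‖ ^ 2)) ∧
    (∀ a b k R : ℝ, 0 < b → b ≤ a → k < 1 → 16 * b * k ^ 2 < 1 → 1 < R →
      ∀ ψ h : ℂ → ℂ → ℂ, Family ψ h → ∀ l : ℂ, ‖l‖ ≤ k →
      marshall a R (h l) ≤
        (R ^ 2 / (R ^ 2 - 1)) ^ ((a - b) * k ^ 2) * (1 / (1 - 16 * b * k ^ 2))) ∧
    (∀ a R : ℝ, 0 < a → a < 1 → 1 < R → ∀ ψ h : ℂ → ℂ → ℂ, Family ψ h → ∀ l : ℂ, ‖l‖ ≤ 1 / 4 →
      marshall a R (h l) ≤ 1 / (1 - a)) := by
  have hpi := Real.pi_pos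
  have toS : ∀ ψ h : ℂ → ℂ, InSigma ψ h → ∃ Y, Pool.Agent.W677.Mar.Sg Y (Pool.Agent.W677.Mar.hat h 0) :=
    fun ψ h H => ⟨_, Pool.Agent.W677.Mar.toSg H.1 H.2.1 H.2.2.1 H.2.2.2.1 H.2.2.2.2.2 H.2.2.2.2.1⟩
  have hm : ∀ (a R : ℝ) (h : ℂ → ℂ), marshall a R h = (1 / (2 * Real.pi)) *
      ∫ θ in (0:ℝ)..(2 * Real.pi), Real.exp (a * ‖h (Pool.Agent.TH325.SI.ep R θ)‖ ^ 2 /
        Real.log (R ^ 2 / (R ^ 2 - 1))) := fun a R h => rfl
  have hexp : ∀ (R x : ℝ), 1 < R → Real.exp (x * Real.log (R ^ 2 / (R ^ 2 - 1))) =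
      (R ^ 2 / (R ^ 2 - 1)) ^ x := by
    intro R x hR
    have : 0 < R ^ 2 - 1 := by nlinarith
    rw [Real.rpow_def_of_pos (by positivity), mul_comm]
  have h4 : ∀ a b k R : ℝ, 0 < b → b ≤ a → k < 1 → 16 * b * k ^ 2 < 1 → 1 < R →
      ∀ ψ h : ℂ → ℂ → ℂ, Family ψ h → ∀ l : ℂ, ‖l‖ ≤ k →
      marshall a R (h l) ≤
        (R ^ 2 / (R ^ 2 - 1)) ^ ((a - b) * k ^ 2) * (1 / (1 - 16 * b * k ^ 2)) := by
    intro a b k R hb hba hk hbk hR ψ h H l hl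
    have hS : ∀ l ∈ Metric.ball (0:ℂ) 1, ∃ Y, Pool.Agent.W677.Mar.Sg Y (Pool.Agent.W677.Mar.hat (h l) 0) :=
      fun m hm => toS _ _ (H.1 m (mem_ball_zero_iff.1 hm))
    have hol : ∀ z : ℂ, 1 < ‖z‖ → DifferentiableOn ℂ (fun l => h l z) (Metric.ball 0 1) := by
      intro z hz
      refine (H.2.1 z hz).mono fun m hm => ?_
      exact mem_ball_zero_iff.1 hm
    have hl1 : ‖l‖ < 1 := lt_of_le_of_lt hl hk
    have h1 := Pool.Agent.X104.MF.family hS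
      (fun m hm => (H.1 m (mem_ball_zero_iff.1 hm)).2.2.2.1) hol H.2.2 hb hk (by linarith) hR hl
    have h2 := Pool.Agent.X104.MF.family_ptw hS hol H.2.2 hk hR hl
    have h3 := Pool.Agent.X104.MF.raise (a := a) (b := b) (κ := k ^ 2)
      (u := fun θ => ‖h l (Pool.Agent.TH325.SI.ep R θ)‖)
      ((Pool.Agent.X104.MF.h_cont (H.1 l hl1).2.2.2.1 hR).norm) (Pool.Agent.X104.MF.L_pos hR) hba
      (fun θ => by
        have := h2 θ
        rw [← mul_pow]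
        exact pow_le_pow_left₀ (norm_nonneg _) this 2) h1
    rw [hexp R _ hR] at h3
    rw [hm]
    have h5 : (1 / (2 * Real.pi)) * ((R ^ 2 / (R ^ 2 - 1)) ^ ((a - b) * k ^ 2) *
        (2 * Real.pi * (1 / (1 - 16 * (b * k ^ 2))))) =
        (R ^ 2 / (R ^ 2 - 1)) ^ ((a - b) * k ^ 2) * (1 / (1 - 16 * b * k ^ 2)) := by
      rw [← mul_assoc 16 b]
      field_simp
    rw [← h5]
    exact mul_le_mul_of_nonneg_left h3 (by positivity)
  have h2 : ∀ a b R : ℝ, 0 < b → b < 1 / 16 → b ≤ a → 1 < R → ∀ ψ h : ℂ → ℂ, InSigma ψ h →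
      marshall a R h ≤ (R ^ 2 / (R ^ 2 - 1)) ^ (a - b) * (1 / (1 - 16 * b)) := by
    intro a b R hb hb1 hba hR ψ h H
    obtain ⟨Y, S⟩ := toS _ _ H
    have h3 := Pool.Agent.X104.MF.raise (a := a) (b := b) (κ := 1)
      (u := fun θ => ‖h (Pool.Agent.TH325.SI.ep R θ)‖)
      ((Pool.Agent.X104.MF.h_cont H.2.2.2.1 hR).norm) (Pool.Agent.X104.MF.L_pos hR) hba
      (fun θ => by
        have := Pool.Agent.X104.MF.gol S hR θ
        rw [one_mul]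
        exact pow_le_pow_left₀ (norm_nonneg _) this 2) (Pool.Agent.X104.MF.base S hb hb1 hR)
    rw [hexp R _ hR, mul_one] at h3
    rw [hm]
    have h5 : (1 / (2 * Real.pi)) * ((R ^ 2 / (R ^ 2 - 1)) ^ (a - b) *
        (2 * Real.pi * (1 / (1 - 16 * b)))) =
        (R ^ 2 / (R ^ 2 - 1)) ^ (a - b) * (1 / (1 - 16 * b)) := by
      field_simp
    rw [← h5]
    exact mul_le_mul_of_nonneg_left h3 (by positivity)
  refine ⟨?_, h2, ?_, h4, ?_⟩
  · intro a R ha ha1 hR ψ h H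
    have := h2 a a R ha ha1 le_rfl hR ψ h H
    rwa [sub_self, Real.rpow_zero, one_mul] at this
  · intro t R hR ψ h H
    obtain ⟨Y, S⟩ := toS _ _ H
    have h1 := Pool.Agent.X104.MF.moments S t hR
    have h5 : (1 / (2 * Real.pi)) * (2 * Real.pi * (R ^ 2 / (R ^ 2 - 1)) ^ (4 * ‖t‖ ^ 2)) =
        (R ^ 2 / (R ^ 2 - 1)) ^ (4 * ‖t‖ ^ 2) := by
      field_simp
    rw [← h5]
    exact mul_le_mul_of_nonneg_left h1 (by positivity)
  · intro a R ha ha1 hR ψ h H l hl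
    have := h4 a a (1 / 4) R ha le_rfl (by norm_num) (by linarith) hR ψ h H l hl
    rw [sub_self, zero_mul, Real.rpow_zero, one_mul] at this
    refine this.trans (le_of_eq ?_)
    congr 1
    ring

end Pool.Agent.Results.MP_16b0ee_an.UnconditionalSixteenth
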